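import Pool.Agent.H12.KP.Targets4

/-!
# Project KEW, block (i): CHGEN, description of the charts by one finitely generated module
-/

namespace Pool.Agent.H36.KP

open Pool.Agent.H12.KP Polynomial TensorProduct

universe u v

theorem span_map {A D L : Type u} [CommRing A] [AddCommGroup D] [Module A D] [AddCommGroup L]
    [Module A L] {S : Set D} {N : Submodule A L} (f : D →ₗ[A] L) (h : ∀ x ∈ S, f x ∈ N) {a : D}
    (ha : a ∈ Submodule.span A S) : f a ∈ N := by
  have h1 : Submodule.span A S ≤ N.comap f := Submodule.span_le.mpr (fun x hx => h x hx)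
  exact h1 ha

theorem key {A D : Type u} [CommRing A] [CommRing D] [Algebra A D]
    (𝒟 : ℕ → Submodule A D) [GradedAlgebra 𝒟] {Δ d0 : ℕ} {l0 l1 : D}
    (H : Forms 𝒟 Δ d0 l0 l1) (j : ℕ) :
    ∀ a ∈ 𝒟 (d0 * Δ + j * Δ), a ∈ Submodule.span A
      {x : D | ∃ i, i ≤ j ∧ ∃ b ∈ 𝒟 (d0 * Δ), x = l0 ^ i * l1 ^ (j - i) * b} := by
  induction j with
  | zero =>
    intro a ha
    rw [zero_mul, add_zero] at ha
    exact Submodule.subset_span ⟨0, le_refl _, a, ha, by simp⟩
  | succ j ih =>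
    intro a ha
    have e : d0 * Δ + (j + 1) * Δ = (d0 * Δ + j * Δ) + Δ := by ring
    rw [e] at ha
    have hd : d0 ≤ d0 * Δ + j * Δ := by
      have h1 : d0 * 1 ≤ d0 * Δ := Nat.mul_le_mul_left _ H.pos
      omega
    obtain ⟨z0, h0, z1, h1, rfl⟩ := H.gen _ hd a ha
    refine Submodule.add_mem _ ?_ ?_
    · refine span_map (LinearMap.mulLeft A l0) ?_ (ih z0 h0)
      rintro x ⟨i, hi, b, hb, rfl⟩
      refine Submodule.subset_span ⟨i + 1, by omega, b, hb, ?_⟩
      rw [LinearMap.mulLeft_apply, Nat.add_sub_add_right, pow_succ]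
      ring
    · refine span_map (LinearMap.mulLeft A l1) ?_ (ih z1 h1)
      rintro x ⟨i, hi, b, hb, rfl⟩
      refine Submodule.subset_span ⟨i, by omega, b, hb, ?_⟩
      rw [LinearMap.mulLeft_apply, Nat.succ_sub hi, pow_succ]
      ring

section Main

variable {A D : Type u} [CommRing A] [CommRing D] [Algebra A D]
    {𝒟 : ℕ → Submodule A D} [GradedAlgebra 𝒟] {L : Type u} [Field L] [Algebra D L]
    [IsFractionRing D L] [Algebra A L] [IsScalarTower A D L]

/-- The linear map `x ↦ x * c` from `D` to `L`. -/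
noncomputable def lm (A D L : Type u) [CommRing A] [CommRing D] [Algebra A D] [Field L]
    [Algebra D L] [Algebra A L] [IsScalarTower A D L] (c : L) : D →ₗ[A] L :=
  (LinearMap.mulRight A c) ∘ₗ (IsScalarTower.toAlgHom A D L).toLinearMap

omit [IsFractionRing D L] in
theorem lm_apply (c : L) (x : D) : lm A D L c x = algebraMap D L x * c := rfl

/-- The module `M`. -/
noncomputable def MM (𝒟 : ℕ → Submodule A D) (L : Type u) [Field L] [Algebra D L]
    [Algebra A L] [IsScalarTower A D L] (Δ d0 : ℕ) (l1 : D) : Submodule A L :=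
  (𝒟 (d0 * Δ)).map (lm A D L (algebraMap D L l1 ^ d0)⁻¹)

omit [IsFractionRing D L] [GradedAlgebra 𝒟] in
theorem MM_mem {Δ d0 : ℕ} {l1 b : D} (hb : b ∈ 𝒟 (d0 * Δ)) :
    algebraMap D L b * (algebraMap D L l1 ^ d0)⁻¹ ∈ MM 𝒟 L Δ d0 l1 :=
  ⟨b, hb, rfl⟩

omit [IsFractionRing D L] [GradedAlgebra 𝒟] in
theorem of_MM {Δ d0 : ℕ} {l1 : D} {m : L} (hm : m ∈ MM 𝒟 L Δ d0 l1) :
    ∃ b ∈ 𝒟 (d0 * Δ), m = algebraMap D L b * (algebraMap D L l1 ^ d0)⁻¹ := by
  obtain ⟨b, hb, rfl⟩ := hm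
  exact ⟨b, hb, rfl⟩

omit [IsFractionRing D L] [Algebra A L] [IsScalarTower A D L] in
/-- enlarging the exponent in a chart. -/
theorem chart_enl {l : D} {Δ : ℕ} (hl : l ∈ 𝒟 Δ) {z : L} (hz : z ∈ Chart 𝒟 L l Δ) (e : ℕ) :
    ∃ k, ∃ a ∈ 𝒟 ((k + e) * Δ), z * algebraMap D L l ^ (k + e) = algebraMap D L a := by
  obtain ⟨k, a, ha, hz⟩ := hz
  refine ⟨k, a * l ^ e, ?_, ?_⟩
  · rw [add_mul]
    have := SetLike.pow_mem_graded e hl
    rw [smul_eq_mul] at this
    exact SetLike.mul_mem_graded ha this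
  · rw [map_mul, map_pow, ← hz, pow_add]; ring

theorem chart1 {Δ d0 : ℕ} {l0 l1 : D} (H : Forms 𝒟 Δ d0 l0 l1) (z : L) :
    z ∈ Chart 𝒟 L l1 Δ ↔ z ∈ Submodule.span A {z : L | ∃ i : ℕ, ∃ m ∈ MM 𝒟 L Δ d0 l1,
        z = (algebraMap D L l0 / algebraMap D L l1) ^ i * m} := by
  have n0 : algebraMap D L l0 ≠ 0 := by
    rw [Ne, FaithfulSMul.algebraMap_eq_zero_iff]; exact H.n0
  have n1 : algebraMap D L l1 ≠ 0 := by
    rw [Ne, FaithfulSMul.algebraMap_eq_zero_iff]; exact H.n1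
  constructor
  · intro hz
    obtain ⟨k, a, ha, hz⟩ := chart_enl H.m1 hz d0
    have e : (k + d0) * Δ = d0 * Δ + k * Δ := by ring
    rw [e] at ha
    have hz' : z = lm A D L (algebraMap D L l1 ^ (k + d0))⁻¹ a := by
      rw [lm_apply, ← hz, mul_inv_cancel_right₀ (pow_ne_zero _ n1)]
    rw [hz']
    refine span_map _ ?_ (key 𝒟 H k a ha)
    rintro x ⟨i, hi, b, hb, rfl⟩
    refine Submodule.subset_span ⟨i, _, MM_mem hb, ?_⟩
    obtain ⟨t, rfl⟩ := Nat.exists_eq_add_of_le hi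
    rw [lm_apply, Nat.add_sub_cancel_left, map_mul, map_mul, map_pow, map_pow, pow_add, pow_add,
      div_pow]
    field_simp
  · intro hz
    have h1 : Submodule.span A {z : L | ∃ i : ℕ, ∃ m ∈ MM 𝒟 L Δ d0 l1,
        z = (algebraMap D L l0 / algebraMap D L l1) ^ i * m} ≤
        Subalgebra.toSubmodule (ChartA 𝒟 L l1 Δ H.m1) := by
      refine Submodule.span_le.mpr ?_
      rintro z ⟨i, m, hm, rfl⟩
      obtain ⟨b, hb, rfl⟩ := of_MM hm
      refine ⟨i + d0, l0 ^ i * b, ?_, ?_⟩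
      · rw [add_mul]
        have := SetLike.pow_mem_graded i H.m0
        rw [smul_eq_mul] at this
        exact SetLike.mul_mem_graded this hb
      · rw [map_mul, map_pow, pow_add, div_pow]
        field_simp
    exact h1 hz

theorem chart0 {Δ d0 : ℕ} {l0 l1 : D} (H : Forms 𝒟 Δ d0 l0 l1) (z : L) :
    z ∈ Chart 𝒟 L l0 Δ ↔ z ∈ Submodule.span A {z : L | ∃ i : ℕ, ∃ m ∈ MM 𝒟 L Δ d0 l1,
        z = (algebraMap D L l1 / algebraMap D L l0) ^ (i + d0) * m} := by
  have n0 : algebraMap D L l0 ≠ 0 := by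
    rw [Ne, FaithfulSMul.algebraMap_eq_zero_iff]; exact H.n0
  have n1 : algebraMap D L l1 ≠ 0 := by
    rw [Ne, FaithfulSMul.algebraMap_eq_zero_iff]; exact H.n1
  constructor
  · intro hz
    obtain ⟨k, a, ha, hz⟩ := chart_enl H.m0 hz d0
    have e : (k + d0) * Δ = d0 * Δ + k * Δ := by ring
    rw [e] at ha
    have hz' : z = lm A D L (algebraMap D L l0 ^ (k + d0))⁻¹ a := by
      rw [lm_apply, ← hz, mul_inv_cancel_right₀ (pow_ne_zero _ n0)]
    rw [hz']
    refine span_map _ ?_ (key 𝒟 H k a ha)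
    rintro x ⟨i, hi, b, hb, rfl⟩
    obtain ⟨t, rfl⟩ := Nat.exists_eq_add_of_le hi
    refine Submodule.subset_span ⟨t, _, MM_mem hb, ?_⟩
    rw [lm_apply, Nat.add_sub_cancel_left, map_mul, map_mul, map_pow, map_pow, div_pow, pow_add,
      pow_add, pow_add]
    field_simp
    ring
  · intro hz
    have h1 : Submodule.span A {z : L | ∃ i : ℕ, ∃ m ∈ MM 𝒟 L Δ d0 l1,
        z = (algebraMap D L l1 / algebraMap D L l0) ^ (i + d0) * m} ≤
        Subalgebra.toSubmodule (ChartA 𝒟 L l0 Δ H.m0) := by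
      refine Submodule.span_le.mpr ?_
      rintro z ⟨i, m, hm, rfl⟩
      obtain ⟨b, hb, rfl⟩ := of_MM hm
      refine ⟨i + d0, l1 ^ i * b, ?_, ?_⟩
      · rw [add_mul]
        have := SetLike.pow_mem_graded i H.m1
        rw [smul_eq_mul] at this
        exact SetLike.mul_mem_graded this hb
      · rw [map_mul, map_pow, div_pow, pow_add, pow_add]
        field_simp
    exact h1 hz

theorem chart01 {Δ d0 : ℕ} {l0 l1 : D} (H : Forms 𝒟 Δ d0 l0 l1) (z : L) :
    z ∈ Chart 𝒟 L (l0 * l1) (Δ + Δ) ↔ z ∈ Submodule.span A {z : L | ∃ i : ℤ,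
      ∃ m ∈ MM 𝒟 L Δ d0 l1, z = (algebraMap D L l0 / algebraMap D L l1) ^ i * m} := by
  have n0 : algebraMap D L l0 ≠ 0 := by
    rw [Ne, FaithfulSMul.algebraMap_eq_zero_iff]; exact H.n0
  have n1 : algebraMap D L l1 ≠ 0 := by
    rw [Ne, FaithfulSMul.algebraMap_eq_zero_iff]; exact H.n1
  have m01 : l0 * l1 ∈ 𝒟 (Δ + Δ) := SetLike.mul_mem_graded H.m0 H.m1
  have n01 : algebraMap D L (l0 * l1) ≠ 0 := by
    rw [map_mul]; exact mul_ne_zero n0 n1
  constructor
  · intro hz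
    obtain ⟨k, a, ha, hz⟩ := chart_enl m01 hz d0
    have e : (k + d0) * (Δ + Δ) = d0 * Δ + (2 * k + d0) * Δ := by ring
    rw [e] at ha
    have hz' : z = lm A D L (algebraMap D L (l0 * l1) ^ (k + d0))⁻¹ a := by
      rw [lm_apply, ← hz, mul_inv_cancel_right₀ (pow_ne_zero _ n01)]
    rw [hz']
    refine span_map _ ?_ (key 𝒟 H (2 * k + d0) a ha)
    rintro x ⟨i, hi, b, hb, rfl⟩
    obtain ⟨t, ht⟩ := Nat.exists_eq_add_of_le hi
    have ht' : 2 * k + d0 - i = t := by omega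
    rw [ht']
    refine Submodule.subset_span ⟨(i : ℤ) - (k : ℤ) - (d0 : ℤ), _, MM_mem hb, ?_⟩
    rw [lm_apply, map_mul, map_mul, map_mul, map_pow, map_pow]
    have hT : (algebraMap D L l0 / algebraMap D L l1) ^ ((i : ℤ) - (k : ℤ) - (d0 : ℤ)) =
        algebraMap D L l0 ^ i * (algebraMap D L l0 ^ (k + d0))⁻¹ *
        (algebraMap D L l1 ^ (k + d0) * (algebraMap D L l1 ^ i)⁻¹) := by
      rw [div_zpow, show (i : ℤ) - (k : ℤ) - (d0 : ℤ) = (i : ℤ) - ((k + d0 : ℕ) : ℤ) by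
        push_cast; ring, zpow_sub₀ n0, zpow_sub₀ n1, zpow_natCast, zpow_natCast, zpow_natCast,
        zpow_natCast]
      field_simp
    rw [hT, mul_pow]
    have hpow : algebraMap D L l1 ^ t * algebraMap D L l1 ^ i * algebraMap D L l1 ^ d0 =
        algebraMap D L l1 ^ (k + d0) * algebraMap D L l1 ^ (k + d0) := by
      rw [← pow_add, ← pow_add, ← pow_add]
      congr 1
      omega
    have p0 : algebraMap D L l0 ^ (k + d0) ≠ 0 := pow_ne_zero _ n0
    have p1 : algebraMap D L l1 ^ (k + d0) ≠ 0 := pow_ne_zero _ n1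
    have p2 : algebraMap D L l1 ^ i ≠ 0 := pow_ne_zero _ n1
    have p3 : algebraMap D L l1 ^ d0 ≠ 0 := pow_ne_zero _ n1
    rw [← sub_eq_zero]
    have : algebraMap D L l0 ^ i * algebraMap D L l1 ^ t * algebraMap D L b *
        (algebraMap D L l0 ^ (k + d0) * algebraMap D L l1 ^ (k + d0))⁻¹ -
        algebraMap D L l0 ^ i * (algebraMap D L l0 ^ (k + d0))⁻¹ *
        (algebraMap D L l1 ^ (k + d0) * (algebraMap D L l1 ^ i)⁻¹) *
        (algebraMap D L b * (algebraMap D L l1 ^ d0)⁻¹) =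
        algebraMap D L l0 ^ i * algebraMap D L b * (algebraMap D L l0 ^ (k + d0))⁻¹ *
        (algebraMap D L l1 ^ (k + d0))⁻¹ * (algebraMap D L l1 ^ i)⁻¹ *
        (algebraMap D L l1 ^ d0)⁻¹ *
        (algebraMap D L l1 ^ t * algebraMap D L l1 ^ i * algebraMap D L l1 ^ d0 -
        algebraMap D L l1 ^ (k + d0) * algebraMap D L l1 ^ (k + d0)) := by
      generalize algebraMap D L l0 ^ (k + d0) = x at p0 ⊢
      generalize algebraMap D L l1 ^ (k + d0) = y at p1 ⊢
      generalize algebraMap D L l1 ^ i = w at p2 ⊢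
      generalize algebraMap D L l1 ^ d0 = v at p3 ⊢
      generalize algebraMap D L l1 ^ t = s
      generalize algebraMap D L l0 ^ i = r
      field_simp
    rw [this, hpow, sub_self, mul_zero]
  · intro hz
    have h1 : Submodule.span A {z : L | ∃ i : ℤ, ∃ m ∈ MM 𝒟 L Δ d0 l1,
        z = (algebraMap D L l0 / algebraMap D L l1) ^ i * m} ≤
        Subalgebra.toSubmodule (ChartA 𝒟 L (l0 * l1) (Δ + Δ) m01) := by
      refine Submodule.span_le.mpr ?_
      rintro z ⟨i, m, hm, rfl⟩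
      obtain ⟨b, hb, rfl⟩ := of_MM hm
      obtain ⟨n, rfl | rfl⟩ := Int.eq_nat_or_neg i
      · refine ⟨n + d0, l0 ^ (2 * n + d0) * b, ?_, ?_⟩
        · rw [show (n + d0) * (Δ + Δ) = (2 * n + d0) * Δ + d0 * Δ by ring]
          have := SetLike.pow_mem_graded (2 * n + d0) H.m0
          rw [smul_eq_mul] at this
          exact SetLike.mul_mem_graded this hb
        · rw [map_mul, map_mul, map_pow, zpow_natCast, mul_pow, div_pow,
            show 2 * n + d0 = n + (n + d0) by ring, pow_add _ n (n + d0), pow_add _ n d0,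
            pow_add _ n d0]
          field_simp
      · refine ⟨n + d0, l1 ^ (2 * n) * l0 ^ d0 * b, ?_, ?_⟩
        · rw [show (n + d0) * (Δ + Δ) = (2 * n) * Δ + d0 * Δ + d0 * Δ by ring]
          have h2 := SetLike.pow_mem_graded (2 * n) H.m1
          rw [smul_eq_mul] at h2
          have h3 := SetLike.pow_mem_graded d0 H.m0
          rw [smul_eq_mul] at h3
          exact SetLike.mul_mem_graded (SetLike.mul_mem_graded h2 h3) hb
        · rw [map_mul, map_mul, map_mul, map_pow, map_pow, zpow_neg, zpow_natCast, mul_pow,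
            div_pow, two_mul, pow_add _ n n, pow_add _ n d0, pow_add _ n d0]
          field_simp
    exact h1 hz

end Main

theorem pf_CHGEN : S_CHGEN.{u} := by
  intro A D _ _ _ _ 𝒟 _ L _ _ _ _ _ Δ d0 l0 l1 H hfg
  exact ⟨MM 𝒟 L Δ d0 l1, d0, (hfg _).map _, fun z => chart1 H z, fun z => chart0 H z,
    fun z => chart01 H z⟩

end Pool.Agent.H36.KP
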